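import Pool.Agent.Helper35.EAM.Spec2

/-!
# EAM2, part CONN: a directed path of open cells connects the origin to the boundary nodes
-/

set_option autoImplicit false

open MeasureTheory

namespace Pool.Agent.H62.EAM

open Pool.H47EA Pool.Agent.Helper35.EAM Pool.Agent.Helper35.EAM2
open Pool.Agent.Lib.helper12.Peierls (Surv)

theorem lp_step (q k : ℕ) (hq : q < 60) (hk : k < 246) :
    ∃ u w : ℕ, u ≤ 244 ∧ w ≤ 1 ∧
      ((lp q k = ((u : ℤ), (w : ℤ)) ∧ lp q (k + 1) = ((u : ℤ) + 1, (w : ℤ)) ∧ u < 244) ∨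
       (lp q k = ((u : ℤ), 0) ∧ lp q (k + 1) = ((u : ℤ), 1)) ∨
       (lp q k = ((u : ℤ), 1) ∧ lp q (k + 1) = ((u : ℤ), 0))) := by
  unfold Pool.Agent.Helper35.EAM2.lp
  by_cases h1 : k < 4 * q + 3
  · refine ⟨k, 0, by omega, by omega, Or.inl ⟨?_, ?_, by omega⟩⟩
    · rw [if_pos (by omega)]; simp
    · rw [if_pos (by omega)]; simp
  by_cases h2 : k = 4 * q + 3
  · refine ⟨k, 0, by omega, by omega, Or.inr (Or.inl ⟨?_, ?_⟩)⟩
    · rw [if_pos (by omega)]
    · rw [if_neg (by omega), if_pos (by omega)]; subst h2; simp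
  by_cases h3 : k = 4 * q + 4
  · refine ⟨4 * q + 3, 1, by omega, by omega, Or.inl ⟨?_, ?_, by omega⟩⟩
    · rw [if_neg (by omega), if_pos (by omega)]; simp
    · rw [if_neg (by omega), if_neg (by omega), if_pos (by omega)]; simp; omega
  by_cases h4 : k = 4 * q + 5
  · refine ⟨4 * q + 4, 1, by omega, by omega, Or.inl ⟨?_, ?_, by omega⟩⟩
    · rw [if_neg (by omega), if_neg (by omega), if_pos (by omega)]; simp
    · rw [if_neg (by omega), if_neg (by omega), if_neg (by omega), if_pos (by omega)]; simp; omega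
  by_cases h5 : k = 4 * q + 6
  · refine ⟨4 * q + 5, 1, by omega, by omega, Or.inr (Or.inr ⟨?_, ?_⟩)⟩
    · rw [if_neg (by omega), if_neg (by omega), if_neg (by omega), if_pos (by omega)]; simp
    · rw [if_neg (by omega), if_neg (by omega), if_neg (by omega), if_neg (by omega)]
      subst h5; simp; omega
  · refine ⟨k - 2, 0, by omega, by omega, Or.inl ⟨?_, ?_, by omega⟩⟩
    · rw [if_neg (by omega), if_neg (by omega), if_neg (by omega), if_neg (by omega)]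
      rw [Nat.cast_sub (by omega)]; simp
    · rw [if_neg (by omega), if_neg (by omega), if_neg (by omega), if_neg (by omega)]
      rw [Nat.cast_sub (by omega)]; simp; ring

theorem edge_h (U : Coupling 3) (s : ℤ × ℤ) (hU : ∀ e : RE, Jc U (ce1 s e) (ce2 s e) = 1)
    (j : Fin 4) (u w : ℕ) (hu : u < 244) (hw : w ≤ 1) :
    Jc U (loc s j ((u : ℤ), (w : ℤ))) (loc s j ((u : ℤ) + 1, (w : ℤ))) = 1 := by
  fin_cases j
  · have h := hU (false, ⟨u, hu⟩, ⟨w, by omega⟩)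
    simpa [ce1, ce2, loc, add_assoc] using h
  · have h := hU (false, ⟨u, hu⟩, ⟨244 - w, by omega⟩)
    have e : ((244 - w : ℕ) : ℤ) = 244 - (w : ℤ) := by push_cast [Nat.cast_sub (show w ≤ 244 by omega)]; ring
    simpa [ce1, ce2, loc, add_assoc, add_sub_assoc, e] using h
  · have h := hU (true, ⟨u, hu⟩, ⟨w, by omega⟩)
    simpa [ce1, ce2, loc, add_assoc] using h
  · have h := hU (true, ⟨u, hu⟩, ⟨244 - w, by omega⟩)
    have e : ((244 - w : ℕ) : ℤ) = 244 - (w : ℤ) := by push_cast [Nat.cast_sub (show w ≤ 244 by omega)]; ring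
    simpa [ce1, ce2, loc, add_assoc, add_sub_assoc, e] using h

theorem edge_v (U : Coupling 3) (s : ℤ × ℤ) (hU : ∀ e : RE, Jc U (ce1 s e) (ce2 s e) = 1)
    (j : Fin 4) (u : ℕ) (hu : u ≤ 244) :
    Jc U (loc s j ((u : ℤ), 0)) (loc s j ((u : ℤ), 1)) = 1 := by
  fin_cases j
  · have h := hU (true, ⟨0, by omega⟩, ⟨u, by omega⟩)
    simpa [ce1, ce2, loc, add_assoc] using h
  · have h := hU (true, ⟨243, by omega⟩, ⟨u, by omega⟩)
    rw [Jc_comm]
    simpa [ce1, ce2, loc, add_assoc, add_sub_assoc] using h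
  · have h := hU (false, ⟨0, by omega⟩, ⟨u, by omega⟩)
    simpa [ce1, ce2, loc, add_assoc] using h
  · have h := hU (false, ⟨243, by omega⟩, ⟨u, by omega⟩)
    rw [Jc_comm]
    simpa [ce1, ce2, loc, add_assoc, add_sub_assoc] using h

theorem edge_P (U : Coupling 3) (s : ℤ × ℤ) (hU : ∀ e : RE, Jc U (ce1 s e) (ce2 s e) = 1)
    (j : Fin 4) (q k : ℕ) (hq : q < 60) (hk : k < 246) :
    Jc U (P s j q k) (P s j q (k + 1)) = 1 := by
  obtain ⟨u, w, hu, hw, h⟩ := lp_step q k hq hk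
  unfold P
  rcases h with ⟨h1, h2, h3⟩ | ⟨h1, h2⟩ | ⟨h1, h2⟩
  · rw [h1, h2]; exact edge_h U s hU j u w h3 hw
  · rw [h1, h2]; exact edge_v U s hU j u hu
  · rw [h1, h2, Jc_comm]; exact edge_v U s hU j u hu

theorem lp_zero (q : ℕ) : lp q 0 = (0, 0) := by simp [Pool.Agent.Helper35.EAM2.lp]

theorem lp_last (q : ℕ) (hq : q < 60) : lp q 246 = (244, 0) := by
  unfold Pool.Agent.Helper35.EAM2.lp
  rw [if_neg (by omega), if_neg (by omega), if_neg (by omega), if_neg (by omega)]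
  simp

/-- the four corners of a cell -/
theorem corners (s : ℤ × ℤ) (q : ℕ) (hq : q < 60) :
    P s 0 q 0 = crn (2 * s.1 - s.2) s.2 ∧ P s 0 q 246 = crn (2 * s.1 - s.2 + 1) s.2 ∧
    P s 1 q 0 = crn (2 * s.1 - s.2) (s.2 + 1) ∧ P s 1 q 246 = crn (2 * s.1 - s.2 + 1) (s.2 + 1) ∧
    P s 2 q 0 = crn (2 * s.1 - s.2) s.2 ∧ P s 2 q 246 = crn (2 * s.1 - s.2) (s.2 + 1) := by
  unfold P
  rw [lp_zero, lp_last q hq]
  refine ⟨?_, ?_, ?_, ?_, ?_, ?_⟩ <;> simp [loc, crn] <;> (try constructor) <;> ring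

section

variable {n : ℕ} {J U : Coupling 3} {σ : Site 3 → Bool} {c : Bool}

theorem nq_lt (J : Coupling 3) (s : ℤ × ℤ) (j : Fin 4) : nq J s j < 60 := by
  unfold nq
  split_ifs with h
  · exact (Classical.choose_spec h).1
  · norm_num

theorem mem_An {s : ℤ × ℤ} (hs : s ∈ gcells J n) (j : Fin 4) (k : ℕ) (hk : k ≤ 246) :
    P s j (nq J s j) k ∈ An (gcells J n) (nq J) n := by
  unfold An
  refine Finset.mem_union_left _ (Finset.mem_biUnion.2 ⟨s, hs, Finset.mem_biUnion.2 ⟨j, Finset.mem_univ _, ?_⟩⟩)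
  exact Finset.mem_image.2 ⟨k, Finset.mem_range.2 (by omega), rfl⟩

theorem mem_Ln_or {x : Site 3} (hx : x ∈ An (gcells J n) (nq J) n) : x ∈ Ln J n ∨ x ∈ Bdn n := by
  by_cases h : x ∈ Bdn n
  · exact Or.inr h
  · exact Or.inl (Finset.mem_sdiff.2 ⟨hx, h⟩)

theorem eq_step (hB : ∀ y ∈ Bdn n, σ y = c)
    (hE : ∀ x ∈ Ln J n, ∀ y ∈ Ln J n ∪ Bdn n, Jc U x y = 1 → σ x = σ y) {x y : Site 3}
    (hx : x ∈ An (gcells J n) (nq J) n) (hy : y ∈ An (gcells J n) (nq J) n)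
    (h : Jc U x y = 1) : σ x = σ y := by
  rcases mem_Ln_or hx with h1 | h1
  · refine hE x h1 y ?_ h
    rcases mem_Ln_or hy with h2 | h2
    · exact Finset.mem_union_left _ h2
    · exact Finset.mem_union_right _ h2
  · rcases mem_Ln_or hy with h2 | h2
    · exact (hE y h2 x (Finset.mem_union_right _ h1) (by rw [Jc_comm]; exact h)).symm
    · rw [hB x h1, hB y h2]

theorem side_const (hB : ∀ y ∈ Bdn n, σ y = c)
    (hE : ∀ x ∈ Ln J n, ∀ y ∈ Ln J n ∪ Bdn n, Jc U x y = 1 → σ x = σ y)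
    {s : ℤ × ℤ} (hs : s ∈ gcells J n) (hU : ∀ e : RE, Jc U (ce1 s e) (ce2 s e) = 1) (j : Fin 4)
    (k : ℕ) (hk : k ≤ 246) : σ (P s j (nq J s j) k) = σ (P s j (nq J s j) 0) := by
  induction k with
  | zero => rfl
  | succ k ih =>
    rw [← ih (by omega)]
    exact (eq_step hB hE (mem_An hs j k (by omega)) (mem_An hs j (k + 1) hk)
      (edge_P U s hU j _ k (nq_lt J s j) (by omega))).symm

theorem ring_const (hB : ∀ y ∈ Bdn n, σ y = c)
    (hE : ∀ x ∈ Ln J n, ∀ y ∈ Ln J n ∪ Bdn n, Jc U x y = 1 → σ x = σ y)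
    {s : ℤ × ℤ} (hs : s ∈ gcells J n) (hU : ∀ e : RE, Jc U (ce1 s e) (ce2 s e) = 1) :
    σ (crn (2 * s.1 - s.2 + 1) s.2) = σ (crn (2 * s.1 - s.2) s.2) ∧
    σ (crn (2 * s.1 - s.2) (s.2 + 1)) = σ (crn (2 * s.1 - s.2) s.2) ∧
    σ (crn (2 * s.1 - s.2 + 1) (s.2 + 1)) = σ (crn (2 * s.1 - s.2) s.2) := by
  have a0 := side_const hB hE hs hU 0 246 le_rfl
  have a1 := side_const hB hE hs hU 1 246 le_rfl
  have a2 := side_const hB hE hs hU 2 246 le_rfl
  obtain ⟨c1, c2, -, -, -, -⟩ := corners s (nq J s 0) (nq_lt J s 0)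
  obtain ⟨-, -, c3, c4, -, -⟩ := corners s (nq J s 1) (nq_lt J s 1)
  obtain ⟨-, -, -, -, c5, c6⟩ := corners s (nq J s 2) (nq_lt J s 2)
  rw [c1, c2] at a0
  rw [c3, c4] at a1
  rw [c5, c6] at a2
  exact ⟨a0, a2, a1.trans a2⟩

theorem good_of {s : ℤ × ℤ} (h1 : 0 ≤ s.1) (h2 : s.1 ≤ s.2) (h3 : s.2 < n)
    (hc : ∀ k, ¬ cl (J, U) s k) :
    s ∈ gcells J n ∧ ∀ e : RE, Jc U (ce1 s e) (ce2 s e) = 1 := by
  classical
  refine ⟨?_, fun e => ?_⟩
  · unfold gcells cells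
    refine Finset.mem_filter.2 ⟨Finset.mem_filter.2 ⟨?_, h2⟩, fun j => ?_⟩
    · exact Finset.mem_product.2 ⟨Finset.mem_Ico.2 ⟨h1, lt_of_le_of_lt h2 h3⟩,
        Finset.mem_Ico.2 ⟨h1.trans h2, h3⟩⟩
    · have := hc (Sum.inl j)
      simp only [cl, not_forall, not_not] at this
      obtain ⟨q, hq, h⟩ := this
      exact ⟨q, hq, h⟩
  · have := hc (Sum.inr e)
    simpa [cl] using this

theorem lower (hB : ∀ y ∈ Bdn n, σ y = c)
    (hE : ∀ x ∈ Ln J n, ∀ y ∈ Ln J n ∪ Bdn n, Jc U x y = 1 → σ x = σ y) :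
    ∀ (m : ℕ) (s : ℤ × ℤ), 0 ≤ s.1 → s.1 ≤ s.2 → s.2 + (m + 1 : ℕ) = n →
      Surv (cl (J, U)) (m + 1) s →
      σ (crn (2 * s.1 - s.2) s.2) = c ∧ σ (crn (2 * s.1 - s.2 + 1) s.2) = c := by
  intro m
  induction m with
  | zero =>
    intro s h1 h2 h3 hS
    obtain ⟨hs, hU⟩ := good_of (n := n) h1 h2 (by push_cast at h3; omega) hS.1
    obtain ⟨r1, r2, r3⟩ := ring_const hB hE hs hU
    have : crn (2 * s.1 - s.2) (s.2 + 1) ∈ Bdn n := by
      unfold Bdn
      refine Finset.mem_image.2 ⟨2 * s.1 - s.2, Finset.mem_Icc.2 ⟨?_, ?_⟩, ?_⟩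
      · push_cast at h3; omega
      · push_cast at h3; omega
      · push_cast at h3
        rw [show s.2 + 1 = (n : ℤ) by omega]
    rw [hB _ this] at r2
    exact ⟨r2.symm, r1.trans r2.symm⟩
  | succ m ih =>
    intro s h1 h2 h3 hS
    obtain ⟨hs, hU⟩ := good_of (n := n) h1 h2 (by push_cast at h3; omega) hS.1
    obtain ⟨r1, r2, r3⟩ := ring_const hB hE hs hU
    have key : σ (crn (2 * s.1 - s.2) s.2) = c := by
      rcases hS.2 with h | h
      · have := (ih (s + (0, 1)) (by simpa using h1) (by simp; omega)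
          (by push_cast at h3 ⊢; simp; omega) h).2
        rw [← r2]
        rw [← this]
        congr 2
        simp; ring
      · have := (ih (s + (1, 1)) (by simp; omega) (by simp; omega)
          (by push_cast at h3 ⊢; simp; omega) h).1
        rw [← r3]
        rw [← this]
        congr 2
        simp; ring
    exact ⟨key, r1.trans key⟩

end

theorem crn_zero : crn 0 0 = 0 := by
  unfold crn
  ext i
  fin_cases i <;> simp

theorem t_CONN : S_CONN := by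
  intro n J U hn hS
  obtain ⟨m, rfl⟩ : ∃ m, n = m + 1 := ⟨n - 1, by omega⟩
  refine ⟨?_, ?_⟩
  · have h := good_of (n := m + 1) (J := J) (U := U) (s := (0 : ℤ × ℤ)) le_rfl le_rfl
      (by simp) hS.1
    have h2 := mem_An h.1 0 0 (by norm_num)
    rw [(corners (0 : ℤ × ℤ) _ (nq_lt J 0 0)).1] at h2
    have e : crn (2 * (0 : ℤ × ℤ).1 - (0 : ℤ × ℤ).2) (0 : ℤ × ℤ).2 = 0 := by
      simpa using crn_zero
    rw [e] at h2
    refine Finset.mem_sdiff.2 ⟨h2, fun hb => ?_⟩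
    unfold Bdn at hb
    obtain ⟨u, -, hu⟩ := Finset.mem_image.1 hb
    have := congrFun hu 1
    simp [crn] at this
    omega
  · intro σ c hB hE
    have := (lower (U := U) hB hE m (0 : ℤ × ℤ) le_rfl le_rfl (by simp) hS).1
    have e : crn (2 * (0 : ℤ × ℤ).1 - (0 : ℤ × ℤ).2) (0 : ℤ × ℤ).2 = 0 := by
      simpa using crn_zero
    rwa [e] at this

end Pool.Agent.H62.EAM
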